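import Pool.Agent.Lib.MP_33dd76_nt.ZZFinal
import Pool.Agent.Lib.MP_33dd76_nt.Model

set_option autoImplicit false

open Polynomial

namespace Pool.Agent.Results.MP_33dd76_nt.PrimitiveEulerian

/-- The depth 2 multizeta value `ζ(s₁,s₂) = ∑ a₁^(-s₁) a₂^(-s₂)`, over the pairs of monic
polynomials `a₁, a₂ ∈ F[X]` with `deg a₁ > deg a₂`, the variable being specialised to `θ`.
(For `‖θ‖ > 1` and `K` complete and non-archimedean this family is summable.) -/
noncomputable def zeta (F : Type) [Field F] {K : Type} [NormedField K] [Algebra F K] (θ : K)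
    (s₁ s₂ : ℕ) : K :=
  ∑' x : {x : F[X] × F[X] // x.1.Monic ∧ x.2.Monic ∧ x.2.natDegree < x.1.natDegree},
    1 / (aeval θ x.1.1 ^ s₁ * aeval θ x.1.2 ^ s₂)

/-- `ϖ` is a Carlitz period: a `(q-1)`-st root of `-θ^q ∏_{i ≥ 1} (1 - θ^(1-q^i))^(-(q-1))`,
where `q` is the number of elements of `F`. -/
def IsCarlitzPeriod (F : Type) [Fintype F] {K : Type} [NormedField K] (θ ϖ : K) : Prop :=
  ϖ ^ (Fintype.card F - 1) =
    -(θ ^ Fintype.card F) /
      (∏' i : ℕ, (1 - θ / θ ^ (Fintype.card F ^ (i + 1)))) ^ (Fintype.card F - 1)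

/-- The pair is eulerian: `ζ(s₁,s₂) / ϖ^(s₁+s₂)` is a rational function of `θ` over `F`. -/
def Eulerian (F : Type) [Field F] {K : Type} [NormedField K] [Algebra F K] (θ ϖ : K)
    (s₁ s₂ : ℕ) : Prop :=
  ∃ n d : F[X], d ≠ 0 ∧ zeta F θ s₁ s₂ / ϖ ^ (s₁ + s₂) = aeval θ n / aeval θ d

theorem period_iff (F : Type) [Field F] [Fintype F] {K : Type} [NormedField K] [Algebra F K]
    (θ ϖ : K) : IsCarlitzPeriod F θ ϖ ↔ Pool.Agent.MP33dd76.IsPeriod F θ ϖ := by
  unfold Pool.Agent.MP33dd76.IsPeriod Pool.Agent.MP33dd76.pprod IsCarlitzPeriod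
  simp only [div_eq_mul_inv, inv_pow]

/-- **Theorem.** Let `F` be a finite field with `q > 2` elements, of characteristic `p`. Let `K` be
a complete non-archimedean normed field containing `F`, an element `θ` with `‖θ‖ > 1` (so `K`
contains `F((1/θ))`) and a Carlitz period `ϖ`. For positive integers `s₁, s₂`, not both divisible
by `p`, the pair `(s₁,s₂)` is eulerian if and only if it is in one of the three listed families.
Moreover such a `K` exists. -/
theorem result (F : Type) [Field F] [Fintype F] (p : ℕ) [CharP F p] (hF : 2 < Fintype.card F) :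
    (∀ (K : Type) [NormedField K] [IsUltrametricDist K] [CompleteSpace K] [Algebra F K]
      (θ ϖ : K), 1 < ‖θ‖ → IsCarlitzPeriod F θ ϖ →
      ∀ s₁ s₂ : ℕ, 0 < s₁ → 0 < s₂ → ¬ (p ∣ s₁ ∧ p ∣ s₂) →
        (Eulerian F θ ϖ s₁ s₂ ↔
          ((s₁ = Fintype.card F - 1 ∧ s₂ = (Fintype.card F - 1) ^ 2) ∨
          (∃ n : ℕ, 1 ≤ n ∧ s₁ = Fintype.card F ^ n - 1 ∧
            s₂ = (Fintype.card F - 1) * Fintype.card F ^ n) ∨
          (∃ n : ℕ, s₁ = (Fintype.card F - 1) * Fintype.card F ^ n ∧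
            s₂ = Fintype.card F ^ (n + 2) - 1 - (Fintype.card F - 1) * Fintype.card F ^ n)))) ∧
    (∃ (K : Type) (_ : NormedField K) (_ : IsUltrametricDist K) (_ : CompleteSpace K)
      (_ : Algebra F K) (θ ϖ : K), 1 < ‖θ‖ ∧ IsCarlitzPeriod F θ ϖ) := by
  constructor
  · intro K _ _ _ _ θ ϖ hθ hϖ s₁ s₂ h₁ h₂ hprim
    have hper : Pool.Agent.MP33dd76.IsPeriod F θ ϖ := (period_iff F θ ϖ).1 hϖ
    have hϖ0 : ϖ ≠ 0 := by
      obtain ⟨Ω, -, -, -, h, -⟩ := Pool.Agent.MP33dd76.exists_Omega hθ hF hper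
      exact h
    have hz : zeta F θ s₁ s₂ = Pool.Agent.MP33dd76.mzv F θ s₁ s₂ := by
      unfold zeta Pool.Agent.MP33dd76.mzv
      simp only [one_div]
      rfl
    rw [← Pool.Agent.MP33dd76.main_iff p hθ hF hper s₁ s₂ h₁ h₂ hprim]
    unfold Eulerian Pool.Agent.MP33dd76.Eulerian
    refine exists_congr fun n => exists_congr fun d => and_congr_right fun hd => ?_
    have hd' : aeval θ d ≠ 0 := Pool.Agent.MP33dd76.aeval_ne_zero hθ d hd
    rw [hz, div_eq_div_iff (pow_ne_zero _ hϖ0) hd', mul_comm (Pool.Agent.MP33dd76.mzv F θ s₁ s₂)]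
  · obtain ⟨K, i1, i2, i3, i4, θ, ϖ, h1, h2⟩ := Pool.Agent.MP33dd76.exists_model F
    exact ⟨K, i1, i2, i3, i4, θ, ϖ, h1, (period_iff F θ ϖ).2 h2⟩

end Pool.Agent.Results.MP_33dd76_nt.PrimitiveEulerian
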